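import Pool.Agent.N108.NC.NoNCCR
import Pool.Agent.TH215.TM.Gor
import Pool.Agent.TH480.J295
import Pool.Agent.TH480.J296
import Pool.Agent.TH480.J297
import Pool.Agent.TH480.J298
import Pool.Agent.TH480.J303
import Pool.Agent.TH182.J302

/-!
# A threefold with a crepant resolution and without non-commutative crepant resolution

Let `R = ℂ[x, y, z, w] / (w⁴ + x³ + y³ + z³)`, a normal Gorenstein domain of dimension three of
finite type over `ℂ`. The blow-up of the origin is a crepant resolution of `Spec R`, but `R` has
no non-commutative crepant resolution `End_R(M)`: every nonzero reflexive `R`-module with maximal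
Cohen-Macaulay endomorphism ring is projective, and `R` is not regular.
-/

set_option autoImplicit false

open CategoryTheory Limits AlgebraicGeometry Abelian TensorProduct
open Pool.Agent.Helper165 Pool.Agent.TH215.TM

universe u

namespace Pool.Agent.Results.MP_edf92a_ag.CrepantNoNCCR

/-- `R` is a normal Gorenstein domain of dimension three, of finite type over `ℂ`. Gorenstein
means that `R` has finite injective dimension over itself (here at most three). -/
structure IsNormalGorensteinThreefold (R : Type) [CommRing R] [Algebra ℂ R] : Prop where
  domain : IsDomain R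
  normal : IsIntegrallyClosed R
  gorenstein : HasInjectiveDimensionLT (ModuleCat.of R R) 4
  dim : ringKrullDim R = 3
  finiteType : Algebra.FiniteType ℂ R

/-- The (left) global dimension of a ring: the supremum of the projective dimensions of its
left modules. -/
noncomputable def gldim (Λ : Type u) [Ring Λ] : WithBot ℕ∞ :=
  ⨆ X : ModuleCat.{u} Λ, projectiveDimension X

/-- `End_R(M)` is a non-commutative crepant resolution of `R`: `M` is a nonzero finitely generated
reflexive `R`-module, `End_R(M)` is maximal Cohen-Macaulay as an `R`-module, and
`gldim End_R(M)_p = dim R_p` for all primes `p` of `R`. -/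
structure IsNCCR (R : Type u) [CommRing R] (M : Type u) [AddCommGroup M] [Module R M] : Prop where
  nonzero : Nontrivial M
  finite : Module.Finite R M
  reflexive : Module.IsReflexive R M
  cohenMacaulay : IsCM R (Module.End R M)
  gldim_eq : ∀ (p : Ideal R) [p.IsPrime],
    gldim (Localization.AtPrime p ⊗[R] Module.End R M) = ringKrullDim (Localization.AtPrime p)

/-- The normal Gorenstein threefold `Spec R`, `R = ℂ[x, y, z, w] / (w⁴ + x³ + y³ + z³)`, has a
crepant resolution, but `R` has no non-commutative crepant resolution. -/
theorem result :
    IsNormalGorensteinThreefold RR ∧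
    (∃ _ : IsIntegral YY, IsCrepantResolution 3 ff piX) ∧
    ∀ (M : Type) [AddCommGroup M] [Module RR M], ¬ IsNCCR RR M := by
  have hR := Pool.Agent.TH480.J295.isDomain_RR
  have hB := Pool.Agent.TH480.J295.isDomain_BB
  have hY : IsIntegral YY := Pool.Agent.TH480.J303.YY_integral
  refine ⟨?_, ⟨hY, ?_⟩, ?_⟩
  · exact
      { domain := hR
        normal := Pool.Agent.TH480.J296.integrallyClosed_RR
        gorenstein := gorenstein_RR
        dim := Pool.Agent.TH480.J296.dim_RR
        finiteType := Algebra.FiniteType.trans (S := S3) inferInstance inferInstance }
  · exact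
      { smooth := Pool.Agent.TH480.J303.ff_smooth Pool.Agent.TH480.J298.BB_smooth
          Pool.Agent.TH480.J297.chartW Pool.Agent.TH480.J297.chartX
        proper := Pool.Agent.TH480.J303.ff_proper
        birational := Pool.Agent.TH480.J303.ff_birational
        crepant := Pool.Agent.TH182.TMC.crepant Pool.Agent.TH480.J297.chartW
          Pool.Agent.TH480.J297.chartX }
  · intro M _ _ h
    have := h.finite
    have := h.reflexive
    exact Pool.Agent.N108.NC.no_nccr M h.cohenMacaulay (h.gldim_eq Pool.Agent.N108.NC.m0)

end Pool.Agent.Results.MP_edf92a_ag.CrepantNoNCCR
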